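import Pool.Agent.H225R3.RatProof

open Topology
open Pool.Agent.H225R3.CV Pool.Agent.H225R3.Rat

namespace Pool.Agent.Results.MP_f64102_gt.NoRationalPoints

/-- There are a Zariski open, conjugation invariant subset `Ω` of `Hom(π₁(S₂), G(ℝ))` whose
quotient `Ω/G(ℝ)` is a smooth manifold, and a connected component `X` of `Ω/G(ℝ)`, that contains no
class of a representation conjugate into `G(ℚ)`. -/
theorem result : ∃ Ω : Set (Rep 2 GR), IsZariskiOpen coordG Ω ∧ ConjInvariant Ω ∧
    IsSmoothManifold (Quo Ω) ∧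
    ∃ x : Quo Ω, ∀ ρ : Ω, (Quotient.mk _ ρ : Quo Ω) ∈ connectedComponent x →
      ¬ ConjIntoGQ ρ.1 :=
  main

end Pool.Agent.Results.MP_f64102_gt.NoRationalPoints
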